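import Pool.Agent.W2helper9.OP.Stm

/-!
Project OP (helper9), piece GAE: good reduction at almost all places.
-/

set_option autoImplicit false
set_option linter.unusedSectionVars false

open MvPolynomial IsDedekindDomain NumberField Filter

namespace Pool.Agent.W2helper24.OP

open Pool.Agent.W2helper9.OP Pool.Agent.Helper819.Dyn

variable {K : Type} [Field K] [NumberField K]

lemma aa_mono {P Q : ValuationSubring (AlgebraicClosure K) → Prop} (h : AA K P)
    (hPQ : ∀ A, P A → Q A) : AA K Q := by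
  refine Set.Finite.subset h ?_
  rintro v ⟨A, hA, hn⟩
  exact ⟨A, hA, fun hp => hn (hPQ A hp)⟩

lemma aa_all (hI : ∀ z : AlgebraicClosure K, AA K fun A => z ∈ A)
    (s : Finset (AlgebraicClosure K)) : AA K fun A => ∀ z ∈ s, z ∈ A := by
  refine Set.Finite.subset (s.finite_toSet.biUnion fun z _ => hI z) ?_
  rintro v ⟨A, hA, hn⟩
  push Not at hn
  obtain ⟨z, hz, hzA⟩ := hn
  exact Set.mem_biUnion hz ⟨A, hA, hzA⟩

/-- the coefficients of `p` are in `A` -/
def CoeffIn {σ : Type} (A : ValuationSubring (AlgebraicClosure K)) (p : MvPolynomial σ K) : Prop :=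
  ∀ m, algebraMap K (AlgebraicClosure K) (coeff m p) ∈ A

lemma coeffIn_aa (hI : ∀ z : AlgebraicClosure K, AA K fun A => z ∈ A) {σ ι : Type} [Fintype ι]
    (p : ι → MvPolynomial σ K) : AA K fun A => ∀ i, CoeffIn A (p i) := by
  classical
  refine aa_mono (aa_all hI (Finset.univ.biUnion fun i : ι =>
    (p i).support.image fun m => algebraMap K (AlgebraicClosure K) (coeff m (p i)))) ?_
  intro A hA i m
  by_cases hm : m ∈ (p i).support
  · exact hA _ (Finset.mem_biUnion.2 ⟨i, Finset.mem_univ _, Finset.mem_image.2 ⟨m, hm, rfl⟩⟩)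
  · rw [notMem_support_iff.1 hm, map_zero]
    exact A.zero_mem

lemma aeval_mem {σ : Type} {A : ValuationSubring (AlgebraicClosure K)} {p : MvPolynomial σ K}
    (hp : CoeffIn A p) {x : σ → AlgebraicClosure K} (hx : ∀ i, x i ∈ A) : aeval x p ∈ A := by
  rw [aeval_def, eval₂_eq]
  exact sum_mem fun m _ => mul_mem (hp m) (prod_mem fun i _ => pow_mem (hx i) _)

theorem p_gae : P_GAE := by
  intro hI K _ _ N d F hF
  have h1 : ∀ j : Fin (N + 1), ∃ (r : ℕ) (a : Fin (N + 1) → MvPolynomial (Fin (N + 1)) K),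
      ∑ i, a i * F i = X j ^ r := by
    intro j
    have h2 : (X j : MvPolynomial (Fin (N + 1)) K) ∈ (Ideal.span (Set.range F)).radical := by
      rw [← vanishingIdeal_zeroLocus_eq_radical (K := AlgebraicClosure K)]
      intro x hx
      have h3 : x = 0 := hF.2 x fun i => hx (F i) (Ideal.subset_span ⟨i, rfl⟩)
      rw [h3, aeval_X]
      rfl
    obtain ⟨r, hr⟩ := h2
    obtain ⟨a, ha⟩ := Ideal.mem_span_range_iff_exists_fun.1 hr
    exact ⟨r, a, ha⟩
  choose r a ha using h1
  have h4 := coeffIn_aa (hI K) (fun t : Fin (N + 1) × Fin (N + 1) ⊕ Fin (N + 1) =>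
    Sum.elim (fun u => a u.1 u.2) F t)
  refine aa_mono h4 ?_
  intro A hA
  have hF' : ∀ i, CoeffIn A (F i) := fun i => hA (Sum.inr i)
  have ha' : ∀ j i, CoeffIn A (a j i) := fun j i => hA (Sum.inl (j, i))
  refine ⟨1, one_ne_zero, fun i m => by rw [one_mul]; exact hF' i m, ?_⟩
  rintro x hx ⟨j, hj⟩
  by_contra hn
  push Not at hn
  have h5 : ∀ i, A.valuation (mp F x i) < 1 := by
    intro i
    have h6 := hn i
    rw [map_one, one_mul] at h6
    exact lt_of_le_of_ne ((A.valuation_le_one_iff _).2 (aeval_mem (hF' i) hx)) h6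
  have h7 : ∑ i, aeval x (a j i) * mp F x i = x j ^ r j := by
    have := congrArg (aeval x) (ha j)
    rw [map_sum, map_pow, aeval_X] at this
    rw [← this]
    exact Finset.sum_congr rfl fun i _ => (map_mul _ _ _).symm
  have h8 : A.valuation (x j ^ r j) < 1 := by
    rw [← h7]
    refine Valuation.map_sum_lt _ one_ne_zero fun i _ => ?_
    rw [map_mul]
    exact mul_lt_one_of_nonneg_of_lt_one_right ((A.valuation_le_one_iff _).2 (aeval_mem (ha' j i) hx))
      zero_le (h5 i)
  rw [map_pow, hj, one_pow] at h8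
  exact lt_irrefl _ h8

end Pool.Agent.W2helper24.OP
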